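import Mathlib
import Pool.Agent.CRM.CAND
import Pool.Agent.CRM.CNT
import Pool.Agent.CRM.EXC
import Pool.Agent.CRM.RAT
import Pool.Agent.CRM.WIN

/-!
# MP_61a569_nt : every large `n` has many different candidates `q(n,k)`, without local obstruction

For integers `n, k` put `q(n,k) = φ(k) + φ(n - k) / 2 + 1`. The question asks, for every `n ≥ 32`, for
a `k`, `0 < k < n - 2`, such that `q = q(n,k)`, `p_q - q - 1` and `p_q - q + 1` are prime. We show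
that for every modulus `W` and every large `n` the candidates `q(n,k)`, `0 < k < n - 2`, take at least
`n^(1/6)` different values which are `≡ 1 (mod W)` (hence prime to `W`) and at least `n^(1/2)`.
-/

set_option autoImplicit false

namespace Pool.Agent.Results.MP_61a569_nt.Candidates

/-- `q(n, k) = φ(k) + φ(n - k) / 2 + 1` -/
def qq (n k : ℕ) : ℕ := Nat.totient k + Nat.totient (n - k) / 2 + 1

theorem result : ∀ W : ℕ, 1 ≤ W → ∃ n0 : ℕ, ∀ n : ℕ, n0 ≤ n →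
    (n : ℝ) ^ (1 / 6 : ℝ) ≤
      (({q : ℕ | q ≡ 1 [MOD W] ∧ (n : ℝ) ^ (1 / 2 : ℝ) ≤ q ∧
        ∃ k : ℕ, 0 < k ∧ k < n - 2 ∧ q = qq n k}.ncard : ℕ) : ℝ) := by
  intro W hW
  obtain ⟨n0, h⟩ := CRM.p_CAND (CRM.p_CNT CRM.p_WIN) CRM.p_EXC CRM.p_RAT W hW
  refine ⟨n0, fun n hn => ?_⟩
  obtain ⟨V, hV, hV2⟩ := h n hn
  refine hV.trans ?_
  have hsub : (V : Set ℕ) ⊆ {q : ℕ | q ≡ 1 [MOD W] ∧ (n : ℝ) ^ (1 / 2 : ℝ) ≤ q ∧
        ∃ k : ℕ, 0 < k ∧ k < n - 2 ∧ q = qq n k} := by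
    intro v hv
    obtain ⟨h1, h2, -, k, h3, h4, h5⟩ := hV2 v hv
    exact ⟨h1, h2, k, h3, h4, h5⟩
  have hfin : {q : ℕ | q ≡ 1 [MOD W] ∧ (n : ℝ) ^ (1 / 2 : ℝ) ≤ q ∧
        ∃ k : ℕ, 0 < k ∧ k < n - 2 ∧ q = qq n k}.Finite := by
    refine ((Finset.range (n - 2)).image (qq n)).finite_toSet.subset ?_
    rintro q ⟨-, -, k, -, h4, h5⟩
    rw [Finset.mem_coe, Finset.mem_image]
    exact ⟨k, Finset.mem_range.2 h4, h5.symm⟩
  have hle := Set.ncard_le_ncard hsub hfin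
  rw [Set.ncard_coe_finset] at hle
  exact_mod_cast hle

end Pool.Agent.Results.MP_61a569_nt.Candidates
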