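import Mathlib
import Pool.Agent.CRM.CAND
import Pool.Agent.CRM.CNT
import Pool.Agent.CRM.EXC
import Pool.Agent.CRM.RAT
import Pool.Agent.CRM.WIN
import Pool.Agent.CRM.BRG
import Pool.Agent.CRM.CHE
import Pool.Agent.CRM.TRI
import Pool.Agent.CRM.MRK
import Pool.Agent.CRM.SPC
import Pool.Agent.CRM.DEN
import Pool.Agent.CRM.THIN
import Pool.Agent.CRM.COND
import Pool.Agent.CRM.MAINP
import Pool.Agent.CRM.FIN

/-!
# MP_61a569_nt : the conjecture in the Cramer model

For integers `n, k` put `q(n,k) = φ(k) + φ(n - k) / 2 + 1`. The question asks whether for every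
`n ≥ 32` there is a `k`, `0 < k < n - 2`, such that `q = q(n,k)`, `p_q - q - 1` and `p_q - q + 1` are
prime. Replace the set of primes by a random set `S(ω) = {m : ω ∈ S m}`, which contains every `m`
prime to `W` with probability `min (1, (W/φ(W))/log m)`, independently, and no other number (Cramer's
model with presieving modulus `W`). We show that, almost surely, for all large `n` there is a `k` with
the property of the question, the function `φ` being the real one and `p_q` being the `q`-th element of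
the random set.
-/

set_option autoImplicit false

open MeasureTheory ProbabilityTheory

namespace Pool.Agent.Results.MP_61a569_nt.CramerModel

/-- `q(n, k) = φ(k) + φ(n - k) / 2 + 1` -/
def qq (n k : ℕ) : ℕ := Nat.totient k + Nat.totient (n - k) / 2 + 1

/-- the probability of `m` in the Cramer model with presieving modulus `W` -/
noncomputable def prob (W m : ℕ) : ℝ :=
  if Nat.Coprime m W then min 1 (((W : ℝ) / Nat.totient W) / Real.log m) else 0

/-- the `j`-th element of the random set `{m : ω ∈ S m}` -/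
noncomputable def elt {Ω : Type} (S : ℕ → Set Ω) (ω : Ω) (j : ℕ) : ℕ :=
  Nat.nth (fun m => ω ∈ S m) (j - 1)

theorem result (W : ℕ) (hW : 1 ≤ W) (Ω : Type) [MeasurableSpace Ω] (μ : Measure Ω)
    [IsProbabilityMeasure μ] (S : ℕ → Set Ω) (hS : ∀ m, MeasurableSet (S m))
    (hind : iIndepSet S μ) (hμ : ∀ m, μ (S m) = ENNReal.ofReal (prob W m)) :
    ∀ᵐ ω ∂μ, ∃ n0 : ℕ, ∀ n : ℕ, n0 ≤ n → ∃ k : ℕ, 0 < k ∧ k < n - 2 ∧
      qq n k + 2 ≤ elt S ω (qq n k) ∧ ω ∈ S (qq n k) ∧
      ω ∈ S (elt S ω (qq n k) - qq n k - 1) ∧ ω ∈ S (elt S ω (qq n k) - qq n k + 1) :=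
  CRM.fin_strong (CRM.p_CAND (CRM.p_CNT CRM.p_WIN) CRM.p_EXC CRM.p_RAT) CRM.p_THIN
    (CRM.p_MAINP CRM.p_CHE CRM.p_SPC CRM.p_DEN (CRM.p_COND CRM.p_TRI CRM.p_MRK)) CRM.p_BRG
    W hW Ω μ S hS hind hμ

end Pool.Agent.Results.MP_61a569_nt.CramerModel
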