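import Pool.Agent.TSU.All

set_option autoImplicit false

/-!
# MP_61a569_nt: for every large `n` at least about half of the `k` are not admissible
-/

namespace Pool.Agent.Results.MP_61a569_nt.EveryN

open Classical in
theorem result :
    (∀ δ : ℝ, 0 < δ → ∃ C : ℝ, 0 < C ∧ ∀ n : ℕ, 16 ≤ n →
      ((((Finset.range (n - 2)).filter (fun k : ℕ => 0 < k ∧
        (Nat.totient k + Nat.totient (n - k) / 2 + 1).Prime ∧ ∃ r s : ℕ, r.Prime ∧ s.Prime ∧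
          r ∣ k ∧ s ∣ n - k ∧ (n : ℝ) ^ (1 + δ) ≤ (r : ℝ) * s)).card : ℕ) : ℝ) ≤
        C * n * (Real.log (Real.log n)) ^ 47 / Real.log n) ∧
    ∀ ε : ℝ, 0 < ε → ∃ n₀ : ℕ, ∀ n : ℕ, n₀ ≤ n →
      ((((Finset.range (n - 2)).filter (fun k : ℕ => 0 < k ∧
        (Nat.totient k + Nat.totient (n - k) / 2 + 1).Prime)).card : ℕ) : ℝ) ≤
        (1 / 2 + ε) * n := by
  have h := Pool.Agent.TSU.fin_all
  unfold Pool.Agent.TSU.T_FIN Pool.Agent.TSU.cnt Pool.Agent.TSU.qq at h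
  refine ⟨fun δ hδ => ?_, fun ε hε => ?_⟩
  · obtain ⟨C, hC, h1⟩ := h.1 δ hδ
    refine ⟨C, hC, fun n hn => ?_⟩
    have h2 := h1 n hn
    convert h2
  · obtain ⟨n₀, h1⟩ := h.2 ε hε
    refine ⟨n₀, fun n hn => ?_⟩
    have h2 := h1 n hn
    convert h2

end Pool.Agent.Results.MP_61a569_nt.EveryN
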