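import Mathlib
import Pool.Agent.TSP.Pairs

/-!
# MP_61a569_nt : thin sets of witnesses do not suffice

For integers `n, k` put `q = φ(k) + φ(n - k) / 2 + 1`; `k` is admissible for `n` if `0 < k < n - 2`
and `q`, `p_q - q - 1`, `p_q - q + 1` are prime (`p_q` is the `q`-th prime). The question asks whether
every `n ≥ 32` has an admissible `k`.

We show, uniformly for all sets `A` of positive integers, that there are at most
`C |A ∩ [1, x]| x (log log x)^20 / log x` pairs `(n, k)`, `n ≤ x`, such that `k` is admissible for `n`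
and `k` or `n - k` belongs to `A`. So no set of possible witnesses with fewer than
`log x / (log log x)^21` elements up to `x` suffices even for a positive proportion of the `n`; in
particular almost all `n` have no admissible `k` with `k` or `n - k` at most `(log n)^(1 - ε)`.
-/

set_option autoImplicit false

open Filter Topology

namespace Pool.Agent.Results.MP_61a569_nt.ThinWitnesses

/-- `q(n, k) = φ(k) + φ(n - k) / 2 + 1` -/
def qq (n k : ℕ) : ℕ := Nat.totient k + Nat.totient (n - k) / 2 + 1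

/-- `k` is admissible for `n` -/
def Admissible (n k : ℕ) : Prop :=
  0 < k ∧ k < n - 2 ∧ (qq n k).Prime ∧
    (Nat.nth Nat.Prime (qq n k - 1) - qq n k - 1).Prime ∧
    (Nat.nth Nat.Prime (qq n k - 1) - qq n k + 1).Prime

open Pool.Agent.TSP in
theorem pairs : ∃ C : ℝ, 0 < C ∧ ∀ (A : Set ℕ) (x : ℕ), 16 ≤ x →
    (({p : ℕ × ℕ | p.1 ≤ x ∧ Admissible p.1 p.2 ∧ (p.2 ∈ A ∨ p.1 - p.2 ∈ A)}.ncard : ℕ) : ℝ) ≤
      C * ((A ∩ Set.Icc 1 x).ncard : ℝ) * x * Real.log (Real.log x) ^ 20 / Real.log x := by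
  classical
  obtain ⟨C, hC0, hC⟩ := phi_bound'
  refine ⟨2 * C, by positivity, ?_⟩
  intro A x hx
  set F : Finset ℕ := (Finset.Icc 1 x).filter (fun k => k ∈ A) with hF
  have hFA : (A ∩ Set.Icc 1 x).ncard = F.card := by
    rw [← Set.ncard_coe_finset]
    congr 1
    ext k
    simp only [hF, Set.mem_inter_iff, Set.mem_Icc, Finset.coe_filter, Finset.mem_Icc,
      Set.mem_ofPred_eq]
    tauto
  set B : ℝ := C * x * Real.log (Real.log x) ^ 20 / Real.log x with hB
  -- the covering set of pairs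
  set G1 : Finset (ℕ × ℕ) := F.biUnion fun k =>
    (QQ x 1 (Nat.totient k + 1)).image fun m => (m + k, k) with hG1
  set G2 : Finset (ℕ × ℕ) := (F.filter fun j => 3 ≤ j).biUnion fun j =>
    (QQ x 2 (Nat.totient j / 2 + 1)).image fun k => (k + j, k) with hG2
  have hsub : {p : ℕ × ℕ | p.1 ≤ x ∧ Admissible p.1 p.2 ∧ (p.2 ∈ A ∨ p.1 - p.2 ∈ A)} ⊆
      ((G1 ∪ G2 : Finset (ℕ × ℕ)) : Set (ℕ × ℕ)) := by
    rintro ⟨n, k⟩ ⟨hn, ⟨hk0, hkn, hq, -, -⟩, hA⟩
    simp only at hn hk0 hkn hq hA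
    unfold qq at hq
    rw [Finset.coe_union]
    rcases hA with hA | hA
    · left
      rw [hG1, Finset.mem_coe, Finset.mem_biUnion]
      refine ⟨k, ?_, ?_⟩
      · rw [hF, Finset.mem_filter, Finset.mem_Icc]
        exact ⟨⟨hk0, by omega⟩, hA⟩
      · rw [Finset.mem_image]
        refine ⟨n - k, ?_, ?_⟩
        · rw [QQ, Finset.mem_filter, Finset.mem_Icc]
          refine ⟨⟨by omega, by omega⟩, ?_⟩
          have : Nat.totient (n - k) * 1 / 2 + (Nat.totient k + 1)
              = Nat.totient k + Nat.totient (n - k) / 2 + 1 := by rw [mul_one]; omega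
          rw [this]
          exact hq
        · rw [Nat.sub_add_cancel (by omega)]
    · right
      rw [hG2, Finset.mem_coe, Finset.mem_biUnion]
      refine ⟨n - k, ?_, ?_⟩
      · rw [Finset.mem_filter, hF, Finset.mem_filter, Finset.mem_Icc]
        exact ⟨⟨⟨by omega, by omega⟩, hA⟩, by omega⟩
      · rw [Finset.mem_image]
        refine ⟨k, ?_, ?_⟩
        · rw [QQ, Finset.mem_filter, Finset.mem_Icc]
          refine ⟨⟨by omega, by omega⟩, ?_⟩
          have : Nat.totient k * 2 / 2 + (Nat.totient (n - k) / 2 + 1)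
              = Nat.totient k + Nat.totient (n - k) / 2 + 1 := by
            rw [Nat.mul_div_cancel _ (by norm_num)]; omega
          rw [this]
          exact hq
        · rw [Nat.add_sub_cancel' (by omega)]
  have h1 : ({p : ℕ × ℕ | p.1 ≤ x ∧ Admissible p.1 p.2 ∧ (p.2 ∈ A ∨ p.1 - p.2 ∈ A)}.ncard)
      ≤ G1.card + G2.card := by
    refine (Set.ncard_le_ncard hsub (Finset.finite_toSet _)).trans ?_
    rw [Set.ncard_coe_finset]
    exact Finset.card_union_le _ _
  have h2 : (G1.card : ℝ) ≤ F.card * B := by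
    have e1 : G1.card ≤ ∑ k ∈ F, (QQ x 1 (Nat.totient k + 1)).card :=
      Finset.card_biUnion_le.trans (Finset.sum_le_sum fun _ _ => Finset.card_image_le)
    have e2 : (G1.card : ℝ) ≤ ∑ k ∈ F, ((QQ x 1 (Nat.totient k + 1)).card : ℝ) := by
      exact_mod_cast e1
    refine e2.trans ?_
    rw [← nsmul_eq_mul]
    refine Finset.sum_le_card_nsmul _ _ _ fun k hk => ?_
    rw [hF, Finset.mem_filter, Finset.mem_Icc] at hk
    have e3 := Nat.totient_pos.2 (show 0 < k by omega)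
    have e4 := Nat.totient_le k
    exact hC x 1 _ hx (Or.inl rfl) (by omega) (by omega)
  have h3 : (G2.card : ℝ) ≤ F.card * B := by
    have e1 : G2.card ≤ ∑ j ∈ F.filter (fun j => 3 ≤ j), (QQ x 2 (Nat.totient j / 2 + 1)).card :=
      Finset.card_biUnion_le.trans (Finset.sum_le_sum fun _ _ => Finset.card_image_le)
    have e2 : (G2.card : ℝ) ≤
        ∑ j ∈ F.filter (fun j => 3 ≤ j), ((QQ x 2 (Nat.totient j / 2 + 1)).card : ℝ) := by
      exact_mod_cast e1
    refine e2.trans ?_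
    have e5 : ∑ j ∈ F.filter (fun j => 3 ≤ j), ((QQ x 2 (Nat.totient j / 2 + 1)).card : ℝ)
        ≤ (F.filter (fun j => 3 ≤ j)).card • B := by
      refine Finset.sum_le_card_nsmul _ _ _ fun j hj => ?_
      rw [Finset.mem_filter, hF, Finset.mem_filter, Finset.mem_Icc] at hj
      obtain ⟨c, hc⟩ : 2 ∣ j.totient := (Nat.totient_even (by omega)).two_dvd
      have e3 := Nat.totient_pos.2 (show 0 < j by omega)
      have e4 := Nat.totient_le j
      exact hC x 2 _ hx (Or.inr rfl) (by omega) (by omega)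
    refine e5.trans ?_
    rw [nsmul_eq_mul]
    have hB0 : 0 ≤ B := by
      obtain ⟨e6, e7⟩ := log_log_ge hx
      have e8 : 0 < Real.log x := by linarith
      have e9 : 0 < Real.log (Real.log x) := by linarith
      positivity
    exact mul_le_mul_of_nonneg_right (by exact_mod_cast Finset.card_filter_le _ _) hB0
  have h4 : (({p : ℕ × ℕ | p.1 ≤ x ∧ Admissible p.1 p.2 ∧ (p.2 ∈ A ∨ p.1 - p.2 ∈ A)}.ncard : ℕ) : ℝ)
      ≤ G1.card + G2.card := by exact_mod_cast h1
  rw [hFA]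
  have h5 : 2 * C * (F.card : ℝ) * x * Real.log (Real.log x) ^ 20 / Real.log x
      = F.card * B + F.card * B := by rw [hB]; ring
  rw [h5]
  linarith

/-- the admissible `k` are not close to the ends -/
theorem ends (C : ℝ) (hC : ∀ (A : Set ℕ) (x : ℕ), 16 ≤ x →
    (({p : ℕ × ℕ | p.1 ≤ x ∧ Admissible p.1 p.2 ∧ (p.2 ∈ A ∨ p.1 - p.2 ∈ A)}.ncard : ℕ) : ℝ) ≤
      C * ((A ∩ Set.Icc 1 x).ncard : ℝ) * x * Real.log (Real.log x) ^ 20 / Real.log x)
    (hC0 : 0 < C) (ε : ℝ) (hε : 0 < ε) (hε1 : ε < 1) :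
    Tendsto (fun x : ℕ => (({n : ℕ | n ≤ x ∧ ∃ k, Admissible n k ∧
      ((k : ℝ) ≤ Real.log n ^ (1 - ε) ∨ ((n - k : ℕ) : ℝ) ≤ Real.log n ^ (1 - ε))}.ncard : ℕ) : ℝ)
        / x) atTop (𝓝 0) := by
  classical
  have hlog : Tendsto (fun x : ℕ => Real.log x) atTop atTop :=
    Real.tendsto_log_atTop.comp tendsto_natCast_atTop_atTop
  have hlim : Tendsto (fun x : ℕ => C * (Real.log (Real.log x) ^ 20 / Real.log x ^ ε)) atTop (𝓝 0) := by
    have h1 : Tendsto (fun L : ℝ => Real.log L ^ (20 : ℝ) / L ^ ε) atTop (𝓝 0) :=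
      (isLittleO_log_rpow_rpow_atTop 20 hε).tendsto_div_nhds_zero
    have h2 : Tendsto (fun L : ℝ => C * (Real.log L ^ 20 / L ^ ε)) atTop (𝓝 (C * 0)) := by
      apply Tendsto.const_mul
      refine h1.congr fun L => ?_
      rw [show (20 : ℝ) = ((20 : ℕ) : ℝ) by norm_num, Real.rpow_natCast]
    rw [mul_zero] at h2
    exact h2.comp hlog
  refine squeeze_zero' (Eventually.of_forall fun x => by positivity) ?_ hlim
  filter_upwards [eventually_ge_atTop 16] with x hx
  obtain ⟨e1, e2⟩ := Pool.Agent.TSP.log_log_ge hx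
  have hx0 : (0 : ℝ) < x := by exact_mod_cast (by omega : 0 < x)
  have hL : 0 < Real.log x := by linarith
  have hl : 0 ≤ Real.log (Real.log x) := by linarith
  set K : ℝ := Real.log x ^ (1 - ε) with hK
  have hK0 : 0 ≤ K := Real.rpow_nonneg hL.le _
  set A : Set ℕ := {k | (k : ℝ) ≤ K} with hA
  have h1 := hC A x hx
  -- the number of elements of `A`
  have hAc : ((A ∩ Set.Icc 1 x).ncard : ℝ) ≤ K := by
    have h2 : A ∩ Set.Icc 1 x ⊆ ((Finset.Icc 1 ⌊K⌋₊ : Finset ℕ) : Set ℕ) := by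
      rintro k ⟨hk1, hk2⟩
      rw [Finset.coe_Icc]
      exact ⟨hk2.1, Nat.le_floor hk1⟩
    have h3 := Set.ncard_le_ncard h2 (Finset.finite_toSet _)
    rw [Set.ncard_coe_finset, Nat.card_Icc, Nat.add_sub_cancel] at h3
    calc ((A ∩ Set.Icc 1 x).ncard : ℝ) ≤ (⌊K⌋₊ : ℝ) := by exact_mod_cast h3
      _ ≤ K := Nat.floor_le hK0
  -- the map `n ↦ (n, k)`
  set S : Set ℕ := {n : ℕ | n ≤ x ∧ ∃ k, Admissible n k ∧
      ((k : ℝ) ≤ Real.log n ^ (1 - ε) ∨ ((n - k : ℕ) : ℝ) ≤ Real.log n ^ (1 - ε))} with hS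
  set T : Set (ℕ × ℕ) := {p : ℕ × ℕ | p.1 ≤ x ∧ Admissible p.1 p.2 ∧ (p.2 ∈ A ∨ p.1 - p.2 ∈ A)}
    with hT
  have hTfin : T.Finite := by
    apply Set.Finite.subset (Finset.finite_toSet (Finset.range (x + 1) ×ˢ Finset.range (x + 1)))
    rintro ⟨n, k⟩ ⟨hn, ⟨hk0, hkn, -⟩, -⟩
    simp only at hn hk0 hkn
    rw [Finset.mem_coe, Finset.mem_product, Finset.mem_range, Finset.mem_range]
    exact ⟨by simp only; omega, by simp only; omega⟩
  have hST : S ⊆ Prod.fst '' T := by
    rintro n ⟨hn, k, hk, hkk⟩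
    refine ⟨(n, k), ⟨hn, hk, ?_⟩, rfl⟩
    have hn1 : 1 ≤ n := by
      have := hk.2.1
      omega
    have h4 : Real.log n ^ (1 - ε) ≤ K := by
      rw [hK]
      apply Real.rpow_le_rpow (Real.log_natCast_nonneg n) _ (by linarith)
      exact Real.log_le_log (by exact_mod_cast hn1) (by exact_mod_cast hn)
    rcases hkk with h5 | h5
    · left
      exact h5.trans h4
    · right
      exact h5.trans h4
  have h5 : S.ncard ≤ T.ncard :=
    (Set.ncard_le_ncard hST (hTfin.image _)).trans (Set.ncard_image_le hTfin)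
  have h6 : (S.ncard : ℝ) ≤ T.ncard := by exact_mod_cast h5
  rw [div_le_iff₀ hx0]
  refine (h6.trans h1).trans ?_
  have h7 : C * ((A ∩ Set.Icc 1 x).ncard : ℝ) * x * Real.log (Real.log x) ^ 20 / Real.log x
      ≤ C * K * x * Real.log (Real.log x) ^ 20 / Real.log x := by
    apply div_le_div_of_nonneg_right _ hL.le
    gcongr
  refine h7.trans (le_of_eq ?_)
  have h8 : K = Real.log x / Real.log x ^ ε := by
    rw [hK, Real.rpow_sub hL, Real.rpow_one]
  have h9 : Real.log x ^ ε ≠ 0 := (Real.rpow_pos_of_pos hL _).ne'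
  rw [h8]
  field_simp

/-- **Theorem.** There is a constant `C` such that for every set `A` of positive integers and every
`x ≥ 16` there are at most `C |A ∩ [1, x]| x (log log x)^20 / log x` pairs `(n, k)` with `n ≤ x`
such that `k` is admissible for `n` and `k ∈ A` or `n - k ∈ A`. In particular, for every
`0 < ε < 1`, the set of the `n` which have an admissible `k` such that `k` or `n - k` is at most
`(log n)^(1 - ε)` has density zero. -/
theorem result :
    (∃ C : ℝ, 0 < C ∧ ∀ (A : Set ℕ) (x : ℕ), 16 ≤ x →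
      (({p : ℕ × ℕ | p.1 ≤ x ∧ Admissible p.1 p.2 ∧ (p.2 ∈ A ∨ p.1 - p.2 ∈ A)}.ncard : ℕ) : ℝ) ≤
        C * ((A ∩ Set.Icc 1 x).ncard : ℝ) * x * Real.log (Real.log x) ^ 20 / Real.log x) ∧
    ∀ ε : ℝ, 0 < ε → ε < 1 →
      Tendsto (fun x : ℕ => (({n : ℕ | n ≤ x ∧ ∃ k, Admissible n k ∧
        ((k : ℝ) ≤ Real.log n ^ (1 - ε) ∨ ((n - k : ℕ) : ℝ) ≤ Real.log n ^ (1 - ε))}.ncard : ℕ) : ℝ)
          / x) atTop (𝓝 0) := by
  obtain ⟨C, hC0, hC⟩ := pairs
  exact ⟨⟨C, hC0, hC⟩, fun ε hε hε1 => ends C hC hC0 ε hε hε1⟩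

end Pool.Agent.Results.MP_61a569_nt.ThinWitnesses
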